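import Mathlib
import Pool.Agent.H63.WinfreeMain

set_option autoImplicit false

/-!
# The Winfree model: sharp averaging estimate

For an oscillator `j` outside the two groups the term `(1 + cos θ_j) cos φ` is, up to the
derivative of a bounded function and an error of order `κ`, at least `-1/2`.
-/

namespace Pool.Agent.H89.WF

open Real Filter Topology Pool.Agent.H63.Winfree

variable {N : ℕ}

/-- corrector of an oscillator with frequency `w` -/
noncomputable def sj (w θ φ : ℝ) : ℝ :=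
  if 0 ≤ w then sin (θ + φ) / (w + 1) else sin (θ - φ) / (w - 1)

/-- derivative of the corrector, when `θ' = a` and `φ' = v` -/
noncomputable def sj' (w θ φ a v : ℝ) : ℝ :=
  if 0 ≤ w then cos (θ + φ) * (a + v) / (w + 1) else cos (θ - φ) * (a - v) / (w - 1)

lemma sj_deriv {w a v t : ℝ} {θ φ : ℝ → ℝ} {s : Set ℝ} (hθ : HasDerivWithinAt θ a s t)
    (hφ : HasDerivWithinAt φ v s t) :
    HasDerivWithinAt (fun u => sj w (θ u) (φ u)) (sj' w (θ t) (φ t) a v) s t := by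
  unfold sj sj'
  by_cases hw : 0 ≤ w
  · simp only [if_pos hw]
    exact ((hθ.add hφ).sin).div_const _
  · simp only [if_neg hw]
    exact ((hθ.sub hφ).sin).div_const _

lemma sj_abs (w θ φ : ℝ) : |sj w θ φ| ≤ 1 := by
  unfold sj
  split_ifs with hw
  · rw [abs_div, abs_of_pos (show 0 < w + 1 by linarith), div_le_one (by linarith)]
    exact (abs_sin_le_one _).trans (by linarith)
  · rw [abs_div, abs_of_neg (show w - 1 < 0 by linarith), div_le_one (by linarith)]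
    exact (abs_sin_le_one _).trans (by linarith)

/-- the key lower bound for one outside oscillator -/
lemma sj_key {w θ φ a v e f : ℝ} (ha : |a - w| ≤ f) (hv : |v - 1| ≤ e) :
    -(1 / 2) - (e + f) / 2 ≤ cos θ * cos φ - 1 / 2 * sj' w θ φ a v := by
  have ha' := abs_le.mp ha
  have hv' := abs_le.mp hv
  have hef : 0 ≤ e + f := by linarith [abs_nonneg (a - w), abs_nonneg (v - 1)]
  unfold sj'
  split_ifs with hw
  · have h1 : cos (θ + φ) * (a + v) / (w + 1)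
        = cos (θ + φ) + cos (θ + φ) * ((a - w + (v - 1)) / (w + 1)) := by
      have : w + 1 ≠ 0 := by linarith
      field_simp
      ring
    have h2 : |(a - w + (v - 1)) / (w + 1)| ≤ e + f := by
      rw [abs_div, abs_of_pos (show 0 < w + 1 by linarith), div_le_iff₀ (by linarith)]
      have h3 : |a - w + (v - 1)| ≤ e + f := by
        rw [abs_le]; constructor <;> linarith [ha'.1, ha'.2, hv'.1, hv'.2]
      nlinarith
    have h3 : |cos (θ + φ) * ((a - w + (v - 1)) / (w + 1))| ≤ e + f := by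
      rw [abs_mul]
      calc |cos (θ + φ)| * |(a - w + (v - 1)) / (w + 1)| ≤ 1 * (e + f) :=
            mul_le_mul (abs_cos_le_one _) h2 (abs_nonneg _) zero_le_one
        _ = e + f := one_mul _
    have h4 := (abs_le.mp h3).2
    have h5 : cos θ * cos φ - 1 / 2 * cos (θ + φ) = 1 / 2 * cos (θ - φ) := by
      rw [cos_add, cos_sub]; ring
    have h6 := neg_one_le_cos (θ - φ)
    rw [h1]
    linarith
  · have h1 : cos (θ - φ) * (a - v) / (w - 1)
        = cos (θ - φ) + cos (θ - φ) * ((a - w - (v - 1)) / (w - 1)) := by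
      have : w - 1 ≠ 0 := by linarith
      field_simp
      ring
    have h2 : |(a - w - (v - 1)) / (w - 1)| ≤ e + f := by
      rw [abs_div, abs_of_neg (show w - 1 < 0 by linarith), div_le_iff₀ (by linarith)]
      have h3 : |a - w - (v - 1)| ≤ e + f := by
        rw [abs_le]; constructor <;> linarith [ha'.1, ha'.2, hv'.1, hv'.2]
      nlinarith
    have h3 : |cos (θ - φ) * ((a - w - (v - 1)) / (w - 1))| ≤ e + f := by
      rw [abs_mul]
      calc |cos (θ - φ)| * |(a - w - (v - 1)) / (w - 1)| ≤ 1 * (e + f) :=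
            mul_le_mul (abs_cos_le_one _) h2 (abs_nonneg _) zero_le_one
        _ = e + f := one_mul _
    have h4 := (abs_le.mp h3).2
    have h5 : cos θ * cos φ - 1 / 2 * cos (θ - φ) = 1 / 2 * cos (θ + φ) := by
      rw [cos_add, cos_sub]; ring
    have h6 := neg_one_le_cos (θ + φ)
    rw [h1]
    linarith

/-- the exponent `U` of the correction factor -/
noncomputable def U (ω : Fin N → ℝ) (B C : Finset (Fin N)) (θ : Fin N → ℝ) (φ : ℝ) : ℝ :=
  (∑ _j ∈ B, 2 * sin φ + ∑ _j ∈ C, (sin φ + 1 / 4 * sin (2 * φ)) +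
    ∑ j ∈ (B ∪ C)ᶜ, (sin φ + 1 / 2 * sj (ω j) (θ j) φ)) / N

/-- its derivative, when `θ' = a` and `φ' = v` -/
noncomputable def U' (ω : Fin N → ℝ) (B C : Finset (Fin N)) (θ a : Fin N → ℝ) (φ v : ℝ) : ℝ :=
  (∑ _j ∈ B, 2 * (cos φ * v) + ∑ _j ∈ C, (cos φ * v + 1 / 4 * (cos (2 * φ) * (2 * v))) +
    ∑ j ∈ (B ∪ C)ᶜ, (cos φ * v + 1 / 2 * sj' (ω j) (θ j) φ (a j) v)) / N

lemma U_deriv {ω : Fin N → ℝ} {B C : Finset (Fin N)} {Θ : ℝ → Fin N → ℝ} {a : Fin N → ℝ}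
    {φ : ℝ → ℝ} {v t : ℝ} {s : Set ℝ} (hΘ : ∀ j, HasDerivWithinAt (fun u => Θ u j) (a j) s t)
    (hφ : HasDerivWithinAt φ v s t) :
    HasDerivWithinAt (fun u => U ω B C (Θ u) (φ u)) (U' ω B C (Θ t) a (φ t) v) s t := by
  unfold U U'
  have h1 : HasDerivWithinAt (fun u => ∑ _j ∈ B, 2 * sin (φ u)) (∑ _j ∈ B, 2 * (cos (φ t) * v)) s t :=
    HasDerivWithinAt.fun_sum (fun j _ => hφ.sin.const_mul 2)
  have h2 : HasDerivWithinAt (fun u => ∑ _j ∈ C, (sin (φ u) + 1 / 4 * sin (2 * φ u)))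
      (∑ _j ∈ C, (cos (φ t) * v + 1 / 4 * (cos (2 * φ t) * (2 * v)))) s t :=
    HasDerivWithinAt.fun_sum (fun j _ => hφ.sin.add (((hφ.const_mul 2).sin).const_mul (1 / 4)))
  have h3 : HasDerivWithinAt
      (fun u => ∑ j ∈ (B ∪ C)ᶜ, (sin (φ u) + 1 / 2 * sj (ω j) (Θ u j) (φ u)))
      (∑ j ∈ (B ∪ C)ᶜ, (cos (φ t) * v + 1 / 2 * sj' (ω j) (Θ t j) (φ t) (a j) v)) s t :=
    HasDerivWithinAt.fun_sum (fun j _ => hφ.sin.add ((sj_deriv (hΘ j) hφ).const_mul (1 / 2)))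
  exact ((h1.add h2).add h3).div_const _

lemma card_split {B C : Finset (Fin N)} (hd : Disjoint B C) :
    (B.card : ℝ) + C.card + ((B ∪ C)ᶜ.card : ℕ) = N := by
  rw [Finset.card_compl, Fintype.card_fin, Finset.card_union_of_disjoint hd]
  have : B.card + C.card ≤ N := by
    rw [← Finset.card_union_of_disjoint hd]
    simpa using Finset.card_le_univ (B ∪ C)
  rw [Nat.cast_sub this]
  push_cast
  ring

lemma U_abs (hN : 0 < N) {ω : Fin N → ℝ} {B C : Finset (Fin N)} (hd : Disjoint B C)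
    (θ : Fin N → ℝ) (φ : ℝ) : |U ω B C θ φ| ≤ 2 := by
  have hNr : (0 : ℝ) < N := by exact_mod_cast hN
  unfold U
  rw [abs_div, abs_of_pos hNr, div_le_iff₀ hNr]
  have h1 : |∑ _j ∈ B, 2 * sin φ| ≤ B.card * 2 := by
    refine (Finset.abs_sum_le_sum_abs _ _).trans ?_
    rw [← nsmul_eq_mul]
    apply Finset.sum_le_card_nsmul
    intro j _
    rw [abs_mul, abs_two]
    linarith [abs_sin_le_one φ]
  have h2 : |∑ _j ∈ C, (sin φ + 1 / 4 * sin (2 * φ))| ≤ C.card * 2 := by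
    refine (Finset.abs_sum_le_sum_abs _ _).trans ?_
    rw [← nsmul_eq_mul]
    apply Finset.sum_le_card_nsmul
    intro j _
    have h1 := neg_one_le_sin φ
    have h2 := sin_le_one φ
    have h3 := neg_one_le_sin (2 * φ)
    have h4 := sin_le_one (2 * φ)
    rw [abs_le]
    constructor <;> linarith
  have h3 : |∑ j ∈ (B ∪ C)ᶜ, (sin φ + 1 / 2 * sj (ω j) (θ j) φ)| ≤ ((B ∪ C)ᶜ.card : ℕ) * 2 := by
    refine (Finset.abs_sum_le_sum_abs _ _).trans ?_
    rw [← nsmul_eq_mul]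
    apply Finset.sum_le_card_nsmul
    intro j _
    have h1 := neg_one_le_sin φ
    have h2 := sin_le_one φ
    have h3 := abs_le.mp (sj_abs (ω j) (θ j) φ)
    rw [abs_le]
    constructor <;> linarith [h3.1, h3.2]
  refine (abs_add_le _ _).trans ?_
  have h4 := abs_add_le (∑ _j ∈ B, 2 * sin φ) (∑ _j ∈ C, (sin φ + 1 / 4 * sin (2 * φ)))
  have h5 := card_split hd
  linarith

/-- **The averaging estimate.** -/
lemma mean_key (hN : 0 < N) {ω : Fin N → ℝ} {B C : Finset (Fin N)} (hd : Disjoint B C)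
    {θ a : Fin N → ℝ} {φ v e f X δ : ℝ} (hB : ∀ j ∈ B, |θ j| ≤ δ) (hC : ∀ j ∈ C, |θ j - φ| ≤ X)
    (hX : 0 ≤ X) (ha : ∀ j, |a j - ω j| ≤ f) (hv : |v - 1| ≤ e) (hf : 0 ≤ f) :
    (C.card / N - (1 - B.card / N - C.card / N)) / 2 - (δ ^ 2 / 2 + X + 5 / 2 * e + f / 2) ≤
      S θ / N * cos φ - U' ω B C θ a φ v := by
  have hNr : (0 : ℝ) < N := by exact_mod_cast hN
  have he0 : 0 ≤ e := (abs_nonneg _).trans hv
  have hv' := abs_le.mp hv
  have hcl := neg_one_le_cos φ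
  have hcu := cos_le_one φ
  have habs : ∀ x : ℝ, |cos φ * x| ≤ |x| := fun x => by
    rw [abs_mul]
    calc |cos φ| * |x| ≤ 1 * |x| := mul_le_mul_of_nonneg_right (abs_cos_le_one _) (abs_nonneg _)
      _ = |x| := one_mul _
  have hsplit : S θ = ∑ j ∈ B, (1 + cos (θ j)) + ∑ j ∈ C, (1 + cos (θ j)) +
      ∑ j ∈ (B ∪ C)ᶜ, (1 + cos (θ j)) := by
    unfold S
    rw [← Finset.sum_add_sum_compl (B ∪ C), Finset.sum_union hd]
  have e1 : S θ / N * cos φ - U' ω B C θ a φ v =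
      (∑ j ∈ B, ((1 + cos (θ j)) * cos φ - 2 * (cos φ * v)) +
        ∑ j ∈ C, ((1 + cos (θ j)) * cos φ - (cos φ * v + 1 / 4 * (cos (2 * φ) * (2 * v)))) +
        ∑ j ∈ (B ∪ C)ᶜ, ((1 + cos (θ j)) * cos φ -
          (cos φ * v + 1 / 2 * sj' (ω j) (θ j) φ (a j) v))) / N := by
    have es : ∀ (A : Finset (Fin N)) (g : Fin N → ℝ), ∑ j ∈ A, ((1 + cos (θ j)) * cos φ - g j)
        = (∑ j ∈ A, (1 + cos (θ j))) * cos φ - ∑ j ∈ A, g j := fun A g => by
      rw [Finset.sum_sub_distrib, Finset.sum_mul]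
    rw [es B, es C, es ((B ∪ C)ᶜ), hsplit]
    unfold U'
    ring
  have h1 : B.card * (-(δ ^ 2 / 2 + 2 * e)) ≤
      ∑ j ∈ B, ((1 + cos (θ j)) * cos φ - 2 * (cos φ * v)) := by
    rw [← nsmul_eq_mul]
    apply Finset.card_nsmul_le_sum
    intro j hj
    have k1 : 1 - (θ j) ^ 2 / 2 ≤ cos (θ j) := one_sub_sq_div_two_le_cos
    have k2 := cos_le_one (θ j)
    have k3 : (θ j) ^ 2 ≤ δ ^ 2 := by
      rw [← sq_abs]
      exact pow_le_pow_left₀ (abs_nonneg _) (hB j hj) 2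
    have k4 : |(cos (θ j) - 1) - 2 * (v - 1)| ≤ δ ^ 2 / 2 + 2 * e := by
      rw [abs_le]
      constructor <;> linarith [hv'.1, hv'.2]
    have k5 := (abs_le.mp ((habs _).trans k4)).1
    have k6 : (1 + cos (θ j)) * cos φ - 2 * (cos φ * v)
        = cos φ * ((cos (θ j) - 1) - 2 * (v - 1)) := by ring
    rw [k6]
    exact k5
  have h2 : C.card * (1 / 2 - X - 5 / 2 * e) ≤
      ∑ j ∈ C, ((1 + cos (θ j)) * cos φ - (cos φ * v + 1 / 4 * (cos (2 * φ) * (2 * v)))) := by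
    rw [← nsmul_eq_mul]
    apply Finset.card_nsmul_le_sum
    intro j hj
    have k1 : |cos (θ j) - cos φ| ≤ X := (abs_cos_sub_cos_le _ _).trans (hC j hj)
    have k2 := (abs_le.mp ((habs _).trans k1)).1
    have k3 : (1 + cos (θ j)) * cos φ - (cos φ * v + 1 / 4 * (cos (2 * φ) * (2 * v)))
        = cos φ * (cos (θ j) - cos φ) + (1 - v) * (cos φ + cos φ ^ 2 - 1 / 2) + 1 / 2 := by
      rw [cos_two_mul]; ring
    have k4 : |cos φ + cos φ ^ 2 - 1 / 2| ≤ 5 / 2 := by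
      have h3 : 0 ≤ cos φ ^ 2 := sq_nonneg _
      have h4 : cos φ ^ 2 ≤ 1 := cos_sq_le_one φ
      rw [abs_le]
      constructor <;> linarith
    have k5 : |(1 - v) * (cos φ + cos φ ^ 2 - 1 / 2)| ≤ e * (5 / 2) := by
      rw [abs_mul, abs_sub_comm]
      exact mul_le_mul hv k4 (abs_nonneg _) he0
    have k6 := (abs_le.mp k5).1
    rw [k3]
    linarith
  have h3 : ((B ∪ C)ᶜ.card : ℕ) * (-(1 / 2) - (e + f) / 2 - e) ≤
      ∑ j ∈ (B ∪ C)ᶜ, ((1 + cos (θ j)) * cos φ -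
          (cos φ * v + 1 / 2 * sj' (ω j) (θ j) φ (a j) v)) := by
    rw [← nsmul_eq_mul]
    apply Finset.card_nsmul_le_sum
    intro j _
    have k1 := sj_key (θ := θ j) (φ := φ) (ha j) hv
    have k2 := (abs_le.mp ((habs (1 - v)).trans (by rwa [abs_sub_comm] : |1 - v| ≤ e))).1
    have k3 : (1 + cos (θ j)) * cos φ - (cos φ * v + 1 / 2 * sj' (ω j) (θ j) φ (a j) v)
        = cos φ * (1 - v) + (cos (θ j) * cos φ - 1 / 2 * sj' (ω j) (θ j) φ (a j) v) := by ring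
    rw [k3]
    linarith
  rw [e1, le_div_iff₀ hNr]
  have hcard := card_split hd
  set nb : ℝ := (B.card : ℝ)
  set nc : ℝ := (C.card : ℝ)
  set no : ℝ := (((B ∪ C)ᶜ.card : ℕ) : ℝ)
  have hb0 : 0 ≤ nb := Nat.cast_nonneg _
  have hc0 : 0 ≤ nc := Nat.cast_nonneg _
  have ho0 : 0 ≤ no := Nat.cast_nonneg _
  have hl : ((nc / N - (1 - nb / N - nc / N)) / 2 - (δ ^ 2 / 2 + X + 5 / 2 * e + f / 2)) * N
      = (nc - (N - nb - nc)) / 2 - N * (δ ^ 2 / 2 + X + 5 / 2 * e + f / 2) := by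
    field_simp
  rw [hl]
  have hNe : (N : ℝ) = nb + nc + no := hcard.symm
  have hd0 : 0 ≤ δ ^ 2 / 2 := by positivity
  have g1 : nb * (-(δ ^ 2 / 2 + X + 5 / 2 * e + f / 2)) ≤ nb * (-(δ ^ 2 / 2 + 2 * e)) :=
    mul_le_mul_of_nonneg_left (by linarith) hb0
  have g2 : nc * (1 / 2 - (δ ^ 2 / 2 + X + 5 / 2 * e + f / 2)) ≤ nc * (1 / 2 - X - 5 / 2 * e) :=
    mul_le_mul_of_nonneg_left (by linarith) hc0
  have g3 : no * (-(1 / 2) - (δ ^ 2 / 2 + X + 5 / 2 * e + f / 2)) ≤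
      no * (-(1 / 2) - (e + f) / 2 - e) :=
    mul_le_mul_of_nonneg_left (by linarith) ho0
  have g4 : (nc - (N - nb - nc)) / 2 - N * (δ ^ 2 / 2 + X + 5 / 2 * e + f / 2)
      = nb * (-(δ ^ 2 / 2 + X + 5 / 2 * e + f / 2)) +
        nc * (1 / 2 - (δ ^ 2 / 2 + X + 5 / 2 * e + f / 2)) +
        no * (-(1 / 2) - (δ ^ 2 / 2 + X + 5 / 2 * e + f / 2)) := by
    rw [hNe]; ring
  rw [g4]
  linarith

end Pool.Agent.H89.WF
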