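import Mathlib
import Pool.Agent.H89.WF.Est

set_option autoImplicit false

/-!
# The Winfree model: partial death and partial locking below one half
-/

namespace Pool.Agent.H89.WF

open Real Filter Topology Pool.Agent.H63.Winfree Pool.Agent.H63

variable {N : ℕ}

/-- The derivative of the corrected difference points inward. -/
lemma trap_C {R φ x Δ u κ η γ : ℝ} (hκ : 0 < κ) (hη : 0 < η) (hη1 : η ≤ 1) (hR0 : 0 ≤ R)
    (hR2 : R ≤ 2) (hD : 3 / 10 * η ≤ R * cos φ - u) (hx : |x| ≤ η / 19) (hx' : η / 21 ≤ |x|)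
    (hΔ : |Δ| ≤ 2 * γ) (hγ : 2 * γ < κ * (19 / 100 * η) * (η / 21)) :
    x * (Δ - κ * (R * (sin (φ + x) - sin φ)) + κ * (x * u)) < 0 := by
  set y := |x| with hy
  have hy0 : 0 < y := lt_of_lt_of_le (by positivity) hx'
  have hxy : x ^ 2 = y ^ 2 := (sq_abs x).symm
  set s1 := sin (φ + x) - sin φ - x * cos φ with hs1
  have hs1' : |s1| ≤ y ^ 2 := sin_expand (by linarith)
  have key : x * (Δ - κ * (R * (sin (φ + x) - sin φ)) + κ * (x * u))
      = x * Δ - κ * (x ^ 2 * (R * cos φ - u)) + κ * (-(R * (x * s1))) := by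
    rw [hs1]
    ring
  rw [key]
  have h1 : x * Δ ≤ y * (2 * γ) := by
    refine (le_abs_self _).trans ?_
    rw [abs_mul]
    exact mul_le_mul_of_nonneg_left hΔ hy0.le
  have h2 : y ^ 2 * (3 / 10 * η) ≤ x ^ 2 * (R * cos φ - u) := by
    rw [hxy]
    exact mul_le_mul_of_nonneg_left hD (sq_nonneg y)
  have h3 : -(R * (x * s1)) ≤ y ^ 2 * (2 * y) := by
    refine (neg_le_abs _).trans ?_
    rw [abs_mul, abs_mul, abs_of_nonneg hR0]
    calc R * (|x| * |s1|) ≤ 2 * (y * y ^ 2) :=
          mul_le_mul hR2 (mul_le_mul_of_nonneg_left hs1' hy0.le) (by positivity) (by norm_num)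
      _ = y ^ 2 * (2 * y) := by ring
  have h3' : y ^ 2 * (2 * y) ≤ y ^ 2 * (2 * (η / 19)) :=
    mul_le_mul_of_nonneg_left (by linarith) (sq_nonneg y)
  have h4 := mul_le_mul_of_nonneg_left h2 hκ.le
  have h5 := mul_le_mul_of_nonneg_left (h3.trans h3') hκ.le
  have h6 : y * (2 * γ) - κ * (y ^ 2 * (3 / 10 * η)) + κ * (y ^ 2 * (2 * (η / 19)))
      = y * (2 * γ - κ * (y * (37 / 190 * η))) := by ring
  have h7 : κ * (19 / 100 * η) * (η / 21) ≤ κ * (y * (37 / 190 * η)) := by
    rw [mul_assoc]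
    apply mul_le_mul_of_nonneg_left _ hκ.le
    calc 19 / 100 * η * (η / 21) ≤ 37 / 190 * η * y :=
          mul_le_mul (by linarith) hx' (by positivity) (by positivity)
      _ = y * (37 / 190 * η) := by ring
  have h8 : y * (2 * γ - κ * (y * (37 / 190 * η))) < 0 :=
    mul_neg_of_pos_of_neg hy0 (by linarith)
  linarith

/-- The derivative of a slow phase points inward. -/
lemma trap_B {R θ w κ η ρ γ : ℝ} (hκ : 0 < κ) (hη : 0 < η) (hη1 : η ≤ 1) (hρ : 0 < ρ)
    (hR : ρ ≤ R) (hθ : |θ| = η / 4) (hw : |w| ≤ γ) (hγ : γ < κ * (ρ * (η / 5))) :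
    θ * (w - κ * (R * sin θ)) < 0 := by
  have hs : η / 5 ≤ sin (η / 4) := by
    have h1 := sin_gt_sub_cube (show 0 < η / 4 by linarith)
    have h2 : (η / 4) ^ 3 / 4 ≤ η / 4 / 5 := by
      have : (η / 4) ^ 3 = η / 4 * (η / 4) ^ 2 := by ring
      rw [this]
      have h3 : (η / 4) ^ 2 ≤ 1 / 16 := by nlinarith
      nlinarith
    linarith
  have h1 : θ * sin θ = η / 4 * sin (η / 4) := by
    rcases (abs_eq (by linarith : (0 : ℝ) ≤ η / 4)).mp hθ with h | h
    · rw [h]
    · rw [h, sin_neg]; ring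
  have h2 : θ * w ≤ η / 4 * γ := by
    refine (le_abs_self _).trans ?_
    rw [abs_mul, hθ]
    exact mul_le_mul_of_nonneg_left hw (by linarith)
  have h3 : θ * (w - κ * (R * sin θ)) = θ * w - κ * (R * (θ * sin θ)) := by ring
  rw [h3, h1]
  have h4 : ρ * (η / 5) ≤ R * sin (η / 4) := mul_le_mul hR hs (by positivity) (by linarith)
  have h5 := mul_le_mul_of_nonneg_left h4 hκ.le
  have h6 : η / 4 * (γ - κ * (ρ * (η / 5))) < 0 := mul_neg_of_pos_of_neg (by linarith) (by linarith)
  have h7 : η / 4 * (κ * (ρ * (η / 5))) ≤ η / 4 * (κ * (R * sin (η / 4))) :=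
    mul_le_mul_of_nonneg_left h5 (by linarith)
  have h8 : κ * (R * (η / 4 * sin (η / 4))) = η / 4 * (κ * (R * sin (η / 4))) := by ring
  rw [h8]
  linarith

/-- **Main theorem.** -/
theorem main (hN : 0 < N) (ω : Fin N → ℝ) (B C : Finset (Fin N)) (hd : Disjoint B C)
    {ρ₁ ρ₂ κ γ η : ℝ} (hρ₁ : 0 < ρ₁) (hρ₂ : 0 < ρ₂) (hρ : ρ₁ + ρ₂ ≤ 1) (hη : 0 < η)
    (hηe : η = ρ₁ + 2 * ρ₂ - 1) (hκ : 0 < κ) (hκ' : κ ≤ η / 60) (hγ : γ ≤ ρ₁ * η ^ 2 * κ / 400)
    (hB : ρ₁ * N ≤ B.card) (hC : ρ₂ * N ≤ C.card)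
    (hωB : ∀ i ∈ B, |ω i| ≤ γ) (hωC : ∀ i ∈ C, |ω i - 1| ≤ γ)
    (Θ : ℝ → Fin N → ℝ) (hΘ : IsSolution ω κ Θ) (h0B : ∀ i ∈ B, |Θ 0 i| < η / 4)
    (h0C : ∀ i ∈ C, ∀ j ∈ C, |Θ 0 i - Θ 0 j| ≤ η / 25) :
    PartialDeath B Θ ∧ PartialLocking C Θ := by
  classical
  have hNr : (0 : ℝ) < N := by exact_mod_cast hN
  set b : ℝ := B.card / N with hb
  set c : ℝ := C.card / N with hc
  have hbr : ρ₁ ≤ b := by rw [hb, le_div_iff₀ hNr]; exact hB
  have hcr : ρ₂ ≤ c := by rw [hc, le_div_iff₀ hNr]; exact hC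
  have hbc : b + c ≤ 1 := by
    rw [hb, hc, ← add_div, div_le_one hNr]
    have : B.card + C.card ≤ N := by
      rw [← Finset.card_union_of_disjoint hd]
      simpa using Finset.card_le_univ (B ∪ C)
    exact_mod_cast this
  have hρ1 : ρ₁ ≤ 1 := by linarith
  have hη1 : η ≤ 1 := by linarith
  have hηsq : η ^ 2 ≤ η := by nlinarith
  -- bounds of γ
  have hγκ : γ ≤ κ / 400 := by
    have h1 : ρ₁ * η ^ 2 ≤ 1 := by nlinarith
    have h2 : ρ₁ * η ^ 2 * κ ≤ 1 * κ := mul_le_mul_of_nonneg_right h1 hκ.le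
    linarith
  have hγ2 : 2 * γ < κ * (19 / 100 * η) * (η / 21) := by
    have h1 : ρ₁ * (η ^ 2 * κ) ≤ 1 * (η ^ 2 * κ) :=
      mul_le_mul_of_nonneg_right hρ1 (by positivity)
    have h2 : 0 < η ^ 2 * κ := by positivity
    have h3 : κ * (19 / 100 * η) * (η / 21) = 19 / 2100 * (η ^ 2 * κ) := by ring
    rw [h3]
    have h4 : ρ₁ * η ^ 2 * κ / 400 = ρ₁ * (η ^ 2 * κ) / 400 := by ring
    rw [h4] at hγ
    linarith
  have hγ3 : γ < κ * (ρ₁ * (η / 5)) := by
    have h1 : ρ₁ * η ^ 2 * κ ≤ ρ₁ * η * κ := by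
      apply mul_le_mul_of_nonneg_right _ hκ.le
      exact mul_le_mul_of_nonneg_left hηsq hρ₁.le
    have h2 : 0 < ρ₁ * η * κ := by positivity
    have h3 : κ * (ρ₁ * (η / 5)) = ρ₁ * η * κ / 5 := by ring
    rw [h3]
    linarith
  -- reference oscillator
  have hCne : C.Nonempty := by
    rw [← Finset.card_pos]
    have : (0 : ℝ) < C.card := lt_of_lt_of_le (by positivity) hC
    exact_mod_cast this
  obtain ⟨j₀, hj₀⟩ := hCne
  -- the mean field
  let R : ℝ → ℝ := fun t => S (Θ t) / N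
  have hR0 : ∀ t, 0 ≤ R t := fun t => div_nonneg (S_nonneg _) hNr.le
  have hR2 : ∀ t, R t ≤ 2 := fun t => by
    show S (Θ t) / N ≤ 2
    rw [div_le_iff₀ hNr]
    exact S_le _
  let a : ℝ → Fin N → ℝ := fun t i => ω i - κ * (R t * sin (Θ t i))
  have hrhs : ∀ t i, rhs ω κ (Θ t) i = a t i := by
    intro t i
    rw [rhs_eq]
    show _ = ω i - κ * (S (Θ t) / N * sin (Θ t i))
    field_simp
  have hder : ∀ i t, 0 ≤ t → HasDerivWithinAt (fun s => Θ s i) (a t i) (Set.Ici 0) t := by
    intro i t ht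
    rw [← hrhs]
    exact hΘ t ht i
  have hRsin : ∀ t i, |κ * (R t * sin (Θ t i))| ≤ 2 * κ := by
    intro t i
    rw [abs_mul, abs_of_pos hκ, abs_mul, abs_of_nonneg (hR0 t)]
    have : R t * |sin (Θ t i)| ≤ 2 * 1 :=
      mul_le_mul (hR2 t) (abs_sin_le_one _) (abs_nonneg _) (by norm_num)
    calc κ * (R t * |sin (Θ t i)|) ≤ κ * (2 * 1) := mul_le_mul_of_nonneg_left this hκ.le
      _ = 2 * κ := by ring
  have hvel0 : ∀ i t, |a t i - ω i| ≤ 2 * κ := by
    intro i t
    have e : a t i - ω i = -(κ * (R t * sin (Θ t i))) := by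
      show ω i - κ * (R t * sin (Θ t i)) - ω i = _
      ring
    rw [e, abs_neg]
    exact hRsin t i
  have hvel : ∀ i ∈ C, ∀ t, |a t i - 1| ≤ γ + 2 * κ := by
    intro i hi t
    have h1 := hωC i hi
    have h2 := hvel0 i t
    rw [abs_le] at h1 h2 ⊢
    constructor <;> linarith [h1.1, h1.2, h2.1, h2.2]
  -- the functions for the exit lemma
  let φ : ℝ → ℝ := fun t => Θ t j₀
  let v : ℝ → ℝ := fun t => a t j₀
  let Ex : ℝ → ℝ := fun t => exp (κ * U ω B C (Θ t) (φ t))
  let u : ℝ → ℝ := fun t => U' ω B C (Θ t) (a t) (φ t) (v t)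
  have hEx : ∀ t, 0 ≤ t → HasDerivWithinAt Ex (Ex t * (κ * u t)) (Set.Ici 0) t := by
    intro t ht
    exact ((U_deriv (fun j => hder j t ht) (hder j₀ t ht)).const_mul κ).exp
  have hExb : ∀ t, 29 / 30 ≤ Ex t ∧ Ex t * (29 / 30) ≤ 1 := by
    intro t
    have h1 := abs_le.mp (U_abs hN hd (ω := ω) (Θ t) (φ t))
    set w := κ * U ω B C (Θ t) (φ t) with hw
    have h2 : w ≤ 1 / 30 := by
      have : w ≤ κ * 2 := mul_le_mul_of_nonneg_left h1.2 hκ.le
      linarith
    have h3 : -(1 / 30) ≤ w := by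
      have : κ * (-2) ≤ w := mul_le_mul_of_nonneg_left h1.1 hκ.le
      linarith
    have e : Ex t = exp w := rfl
    rw [e]
    constructor
    · have := add_one_le_exp w
      linarith
    · have h5 := add_one_le_exp (-w)
      have h6 : exp w * exp (-w) = 1 := by rw [← exp_add]; simp
      have h7 : 29 / 30 ≤ exp (-w) := by linarith
      calc exp w * (29 / 30) ≤ exp w * exp (-w) :=
            mul_le_mul_of_nonneg_left h7 (exp_pos w).le
        _ = 1 := h6
  have Epos : ∀ t, 0 < Ex t := fun t => exp_pos _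
  let g : Fin N → ℝ → ℝ := fun k t =>
    if k ∈ B then Θ t k else if k ∈ C then (Θ t k - φ t) * Ex t else 0
  let g' : Fin N → ℝ → ℝ := fun k t =>
    if k ∈ B then a t k else if k ∈ C then
      (a t k - v t) * Ex t + (Θ t k - φ t) * (Ex t * (κ * u t)) else 0
  let M : Fin N → ℝ := fun k => if k ∈ B then η / 4 else if k ∈ C then η / 20 else 1
  have hBC : ∀ k ∈ C, k ∉ B := fun k hk hk' => (Finset.disjoint_left.mp hd) hk' hk
  have gB : ∀ k ∈ B, ∀ t, g k t = Θ t k := fun k hk t => if_pos hk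
  have gC : ∀ k ∈ C, ∀ t, g k t = (Θ t k - φ t) * Ex t := fun k hk t => by
    simp only [g, if_neg (hBC k hk), if_pos hk]
  have MB : ∀ k ∈ B, M k = η / 4 := fun k hk => if_pos hk
  have MC : ∀ k ∈ C, M k = η / 20 := fun k hk => by
    simp only [M, if_neg (hBC k hk), if_pos hk]
  -- from the corrected difference to the difference
  have rCof : ∀ t, ∀ j ∈ C, |g j t| ≤ M j → |Θ t j - φ t| ≤ η / 19 := by
    intro t j hj this
    rw [gC j hj, MC j hj, abs_mul, abs_of_pos (Epos t)] at this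
    have h1 : |Θ t j - φ t| * (29 / 30) ≤ |Θ t j - φ t| * Ex t :=
      mul_le_mul_of_nonneg_left (hExb t).1 (abs_nonneg _)
    linarith
  have exit := OdeGlobal.first_exit g g' M ?_ ?_ ?_
  rotate_left
  · -- derivatives
    intro k t ht
    by_cases hk : k ∈ B
    · have e1 : g k = fun s => Θ s k := by funext s; exact gB k hk s
      have e2 : g' k t = a t k := if_pos hk
      rw [e1, e2]
      exact hder k t ht
    · by_cases hk' : k ∈ C
      · have e1 : g k = fun s => (Θ s k - φ s) * Ex s := by funext s; exact gC k hk' s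
        have e2 : g' k t = (a t k - v t) * Ex t + (Θ t k - φ t) * (Ex t * (κ * u t)) := by
          simp only [g', if_neg hk, if_pos hk']
        rw [e1, e2]
        exact ((hder k t ht).sub (hder j₀ t ht)).mul (hEx t ht)
      · have e1 : g k = fun _ => 0 := by funext s; simp only [g, if_neg hk, if_neg hk']
        have e2 : g' k t = 0 := by simp only [g', if_neg hk, if_neg hk']
        rw [e1, e2]
        exact hasDerivWithinAt_const _ _ _
  · -- initial values
    intro k
    by_cases hk : k ∈ B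
    · rw [gB k hk, MB k hk]
      exact h0B k hk
    · by_cases hk' : k ∈ C
      · rw [gC k hk', MC k hk', abs_mul, abs_of_pos (Epos 0)]
        have h1 := h0C k hk' j₀ hj₀
        have h2 : |Θ 0 k - φ 0| ≤ η / 25 := h1
        have h3 : |Θ 0 k - φ 0| * Ex 0 ≤ η / 25 * Ex 0 :=
          mul_le_mul_of_nonneg_right h2 (Epos 0).le
        have h4 : Ex 0 ≤ 30 / 29 := by linarith [(hExb 0).2]
        have h5 : η / 25 * Ex 0 ≤ η / 25 * (30 / 29) :=
          mul_le_mul_of_nonneg_left h4 (by linarith)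
        linarith
      · have e1 : g k 0 = 0 := by simp only [g, if_neg hk, if_neg hk']
        have e2 : M k = 1 := by simp only [M, if_neg hk, if_neg hk']
        rw [e1, e2, abs_zero]
        norm_num
  · -- the field points inward
    intro t ht hall k hk
    have rB : ∀ j ∈ B, |Θ t j| ≤ η / 4 := by
      intro j hj
      have := hall j
      rwa [gB j hj, MB j hj] at this
    have rC : ∀ j ∈ C, |Θ t j - φ t| ≤ η / 19 := fun j hj => rCof t j hj (hall j)
    by_cases hkB : k ∈ B
    · have e2 : g' k t = ω k - κ * (R t * sin (Θ t k)) := if_pos hkB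
      rw [gB k hkB, MB k hkB] at hk
      rw [gB k hkB, e2]
      refine trap_B hκ hη hη1 hρ₁ ?_ hk (hωB k hkB) hγ3
      -- lower bound of the mean field
      have h1 : (B.card : ℝ) * 1 ≤ ∑ j ∈ B, (1 + cos (Θ t j)) := by
        rw [← nsmul_eq_mul]
        apply Finset.card_nsmul_le_sum
        intro j hj
        have k1 : 1 - (Θ t j) ^ 2 / 2 ≤ cos (Θ t j) := one_sub_sq_div_two_le_cos
        have k3 : (Θ t j) ^ 2 ≤ (η / 4) ^ 2 := by
          rw [← sq_abs]
          exact pow_le_pow_left₀ (abs_nonneg _) (rB j hj) 2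
        have k4 : (η / 4) ^ 2 ≤ 1 := by nlinarith
        linarith
      have h2 : ∑ j ∈ B, (1 + cos (Θ t j)) ≤ S (Θ t) :=
        Finset.sum_le_sum_of_subset_of_nonneg (Finset.subset_univ _)
          (fun j _ _ => by linarith [neg_one_le_cos (Θ t j)])
      show ρ₁ ≤ S (Θ t) / N
      rw [le_div_iff₀ hNr]
      linarith
    · by_cases hkC : k ∈ C
      · have e2 : g' k t = (a t k - v t) * Ex t + (Θ t k - φ t) * (Ex t * (κ * u t)) := by
          simp only [g', if_neg hkB, if_pos hkC]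
        rw [gC k hkC, MC k hkC, abs_mul, abs_of_pos (Epos t)] at hk
        rw [gC k hkC, e2]
        have hD : 3 / 10 * η ≤ R t * cos (φ t) - u t := by
          have h1 := mean_key (θ := Θ t) (a := a t) (φ := φ t) (v := v t) (e := γ + 2 * κ)
            (f := 2 * κ) (X := η / 19) (δ := η / 4) (ω := ω) hN hd rB rC (by positivity)
            (fun j => hvel0 j t) (hvel j₀ hj₀ t) (by positivity)
          have h2 : (η / 4) ^ 2 / 2 ≤ η / 32 := by nlinarith
          have h3 : η ≤ c - (1 - b - c) := by linarith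
          have h4 : S (Θ t) / N * cos (φ t) - U' ω B C (Θ t) (a t) (φ t) (v t)
              = R t * cos (φ t) - u t := rfl
          rw [h4] at h1
          linarith
        set x := Θ t k - φ t with hx
        have hxl : η / 21 ≤ |x| := by
          have h1 : |x| * (Ex t * (29 / 30)) ≤ |x| * 1 :=
            mul_le_mul_of_nonneg_left (hExb t).2 (abs_nonneg _)
          have h2 : |x| * (Ex t * (29 / 30)) = |x| * Ex t * (29 / 30) := by
            ring
          rw [h2, hk] at h1
          linarith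
        have hΔ : |ω k - ω j₀| ≤ 2 * γ := by
          have h1 := hωC k hkC
          have h2 := hωC j₀ hj₀
          rw [abs_le] at h1 h2 ⊢
          constructor <;> linarith [h1.1, h1.2, h2.1, h2.2]
        have htrap := trap_C hκ hη hη1 (hR0 t) (hR2 t) hD (rC k hkC) hxl hΔ hγ2
        have hfx : φ t + x = Θ t k := by rw [hx]; ring
        rw [← hx, hfx] at htrap
        have e3 : x * Ex t * ((a t k - v t) * Ex t + x * (Ex t * (κ * u t)))
            = Ex t ^ 2 * (x * (ω k - ω j₀ - κ * (R t * (sin (Θ t k) - sin (φ t))) +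
              κ * (x * u t))) := by
          show x * Ex t * ((ω k - κ * (R t * sin (Θ t k)) -
            (ω j₀ - κ * (R t * sin (φ t)))) * Ex t + _) = _
          ring
        rw [e3]
        have h9 : 0 < Ex t ^ 2 := pow_pos (Epos t) 2
        exact mul_neg_of_pos_of_neg h9 htrap
      · exfalso
        have e1 : g k t = 0 := by simp only [g, if_neg hkB, if_neg hkC]
        have e2 : M k = 1 := by simp only [M, if_neg hkB, if_neg hkC]
        rw [e1, e2] at hk
        simp at hk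
  · -- conclusion
    refine ⟨fun i hi => ⟨η / 4, fun t ht => ?_⟩, fun i hi j hj => ⟨2 * (η / 19), fun t ht => ?_⟩,
      fun i hi hlim => ?_⟩
    · have := exit t ht i
      rw [gB i hi, MB i hi] at this
      exact this.le
    · have e : Θ t i - Θ t j = (Θ t i - φ t) - (Θ t j - φ t) := by ring
      rw [e]
      refine (abs_sub _ _).trans ?_
      have h1 := rCof t i hi (exit t ht i).le
      have h2 := rCof t j hj (exit t ht j).le
      linarith
    · -- the phases in `C` grow linearly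
      have hmono : MonotoneOn (fun t => Θ t i - 1 / 2 * t) (Set.Ici 0) := by
        have hd' : ∀ t, 0 ≤ t → HasDerivWithinAt (fun t => Θ t i - 1 / 2 * t)
            (a t i - 1 / 2 * 1) (Set.Ici 0) t := fun t ht =>
          (hder i t ht).sub ((hasDerivWithinAt_id t _).const_mul (1 / 2))
        apply monotoneOn_of_hasDerivWithinAt_nonneg (convex_Ici 0)
          (f' := fun t => a t i - 1 / 2 * 1)
        · intro t ht
          exact (hd' t ht).continuousWithinAt
        · intro t ht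
          rw [interior_Ici] at ht
          exact (hd' t (le_of_lt ht)).mono interior_subset
        · intro t ht
          have := hvel i hi t
          rw [abs_le] at this
          linarith [this.1]
      have hge : ∀ t, 0 ≤ t → Θ 0 i + 1 / 2 * t ≤ Θ t i := by
        intro t ht
        have := hmono (Set.mem_Ici.mpr le_rfl) (Set.mem_Ici.mpr ht) ht
        simp only at this
        linarith
      have hev : ∀ᶠ t in atTop, (1 / 4 : ℝ) ≤ Θ t i / t := by
        filter_upwards [eventually_gt_atTop (0 : ℝ), eventually_ge_atTop (4 * |Θ 0 i|)] with t ht h4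
        rw [le_div_iff₀ ht]
        have h1 := hge t ht.le
        have h2 := neg_abs_le (Θ 0 i)
        linarith
      have := ge_of_tendsto hlim hev
      linarith

end Pool.Agent.H89.WF
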